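import Mathlib
import Pool.Agent.Run7.h481.RG.Iface

set_option autoImplicit false

/-! Piece AC of project RG (helper481, MP_e3daee_pr). -/

namespace Run7.h849.RG

open MeasureTheory ProbabilityTheory Set Filter H481.RG
open scoped NNReal ENNReal Topology symmDiff

/-- the index of the interval of level `m` which contains `t` -/
noncomputable def idx (m : ℕ) (t : ℝ) : ℕ := ⌈t * 3 ^ m⌉₊ - 1

lemma idx_eq (m k : ℕ) (t : ℝ) (ht : 0 < t) :
    idx m t = k ↔ (k : ℝ) / 3 ^ m < t ∧ t ≤ ((k : ℝ) + 1) / 3 ^ m := by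
  have h3 : (0 : ℝ) < 3 ^ m := by positivity
  have hpos : 0 < t * 3 ^ m := by positivity
  have hc : 0 < ⌈t * 3 ^ m⌉₊ := Nat.ceil_pos.2 hpos
  unfold idx
  have h1 : ⌈t * 3 ^ m⌉₊ - 1 = k ↔ ⌈t * 3 ^ m⌉₊ = k + 1 := by omega
  rw [h1, Nat.ceil_eq_iff (Nat.succ_ne_zero k), Nat.succ_sub_one, div_lt_iff₀ h3,
    le_div_iff₀ h3]
  push_cast
  rfl

lemma idx_refine1 (m : ℕ) (t : ℝ) (ht : 0 < t) : idx (m + 1) t / 3 = idx m t := by
  have h3 : (0 : ℝ) < 3 ^ m := by positivity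
  obtain ⟨h1, h2⟩ := (idx_eq (m + 1) (idx (m + 1) t) t ht).1 rfl
  symm
  rw [idx_eq m _ t ht]
  set K := idx (m + 1) t
  rw [pow_succ, div_lt_iff₀ (by positivity)] at h1
  rw [pow_succ, le_div_iff₀ (by positivity)] at h2
  have h4 : 3 * (K / 3) ≤ K := Nat.mul_div_le K 3
  have h5 : K + 1 ≤ 3 * (K / 3) + 3 := by omega
  have h4' : (3 : ℝ) * ((K / 3 : ℕ) : ℝ) ≤ K := by exact_mod_cast h4
  have h5' : (K : ℝ) + 1 ≤ 3 * ((K / 3 : ℕ) : ℝ) + 3 := by exact_mod_cast h5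
  rw [div_lt_iff₀ h3, le_div_iff₀ h3]
  constructor <;> nlinarith

lemma idx_refine (m n : ℕ) (t : ℝ) (ht : 0 < t) : idx (m + n) t / 3 ^ n = idx m t := by
  induction n with
  | zero => simp
  | succ n ih =>
    rw [pow_succ', ← Nat.div_div_eq_div_mul, ← add_assoc, idx_refine1 _ _ ht, ih]

lemma idx_lt (m : ℕ) (t : ℝ) (ht : 0 < t) (ht1 : t ≤ 1) : idx m t < 3 ^ m := by
  obtain ⟨h1, -⟩ := (idx_eq m (idx m t) t ht).1 rfl
  have h3 : (0 : ℝ) < 3 ^ m := by positivity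
  rw [div_lt_iff₀ h3] at h1
  have h2 : ((idx m t : ℕ) : ℝ) < ((3 ^ m : ℕ) : ℝ) := by
    push_cast
    nlinarith
  exact_mod_cast h2

variable {Ω : Type}

lemma grid_le (F : U → ℝ → ℝ) (W : ℝ≥0 → Ω → ℝ) (V : Ω → U) (m n K : ℕ) :
    grid F W V m (K / 3 ^ n) ≤ grid F W V (m + n) K := by
  refine iSup₂_le fun j hj => ?_
  have hj' : j * 3 ^ n ≤ K := (Nat.le_div_iff_mul_le (by positivity)).1 hj
  have he : ((j : ℝ≥0) / 3 ^ m) = ((j * 3 ^ n : ℕ) : ℝ≥0) / 3 ^ (m + n) := by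
    rw [pow_add]
    push_cast
    rw [mul_div_mul_right]
    positivity
  rw [he]
  exact le_iSup₂_of_le (f := fun (j : ℕ) (_ : j ≤ K) =>
    MeasurableSpace.comap (X F W V ((j : ℝ≥0) / 3 ^ (m + n))) inferInstance)
    (j * 3 ^ n) hj' le_rfl

/-- the sets of the algebra -/
def cyl (m : ℕ) (B : ℕ → Set Ω) (b : Prop) : Set (Ω × ℝ) :=
  {p | ((0 < p.2 ∧ p.2 ≤ 1) ∧ p.1 ∈ B (idx m p.2)) ∨ (¬ (0 < p.2 ∧ p.2 ≤ 1) ∧ b)}

/-- the algebra -/
def Alg (F : U → ℝ → ℝ) (W : ℝ≥0 → Ω → ℝ) (V : Ω → U) : Set (Set (Ω × ℝ)) :=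
  {D | ∃ (m : ℕ) (B : ℕ → Set Ω) (b : Prop),
    (∀ k < 3 ^ m, MeasurableSet[grid F W V m k] (B k)) ∧ D = cyl m B b}

lemma cyl_refine (m n : ℕ) (B : ℕ → Set Ω) (b : Prop) :
    cyl m B b = cyl (m + n) (fun K => B (K / 3 ^ n)) b := by
  ext p
  simp only [cyl, mem_ofPred_eq]
  by_cases h : 0 < p.2 ∧ p.2 ≤ 1
  · rw [idx_refine m n p.2 h.1]
  · simp [h]

lemma refine_meas (F : U → ℝ → ℝ) (W : ℝ≥0 → Ω → ℝ) (V : Ω → U) (m n : ℕ) (B : ℕ → Set Ω)
    (hB : ∀ k < 3 ^ m, MeasurableSet[grid F W V m k] (B k)) :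
    ∀ k < 3 ^ (m + n), MeasurableSet[grid F W V (m + n) k] (B (k / 3 ^ n)) := by
  intro k hk
  have h1 : k / 3 ^ n < 3 ^ m := by
    apply Nat.div_lt_of_lt_mul
    rwa [← pow_add, add_comm n m]
  exact grid_le F W V m n k _ (hB _ h1)

lemma alg_isSetAlgebra (F : U → ℝ → ℝ) (W : ℝ≥0 → Ω → ℝ) (V : Ω → U) :
    IsSetAlgebra (Alg F W V) where
  empty_mem := by
    refine ⟨0, fun _ => ∅, False, fun k _ => @MeasurableSet.empty _ (grid F W V 0 k), ?_⟩
    ext p
    simp [cyl]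
  compl_mem := by
    rintro s ⟨m, B, b, hB, rfl⟩
    refine ⟨m, fun k => (B k)ᶜ, ¬ b, fun k hk => (hB k hk).compl, ?_⟩
    ext p
    simp only [cyl, mem_ofPred_eq, mem_compl_iff]
    by_cases h : 0 < p.2 ∧ p.2 ≤ 1 <;> simp [h]
  union_mem := by
    rintro s t ⟨m, B, b, hB, rfl⟩ ⟨m', B', b', hB', rfl⟩
    rw [cyl_refine m m' B b, cyl_refine m' m B' b', add_comm m' m]
    refine ⟨m + m', fun k => B (k / 3 ^ m') ∪ B' (k / 3 ^ m), b ∨ b', fun k hk => ?_, ?_⟩
    · have h1 := refine_meas F W V m m' B hB k hk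
      have h2 := refine_meas F W V m' m B' hB' k (by rwa [add_comm])
      rw [add_comm m' m] at h2
      exact h1.union h2
    · ext p
      simp only [cyl, mem_ofPred_eq, mem_union]
      by_cases h : 0 < p.2 ∧ p.2 ≤ 1 <;> simp [h]

lemma cyl_false (m : ℕ) (B : ℕ → Set Ω) : cyl m B False =
    ⋃ k ∈ Finset.range (3 ^ m), B k ×ˢ Ioc ((k : ℝ) / 3 ^ m) (((k : ℝ) + 1) / 3 ^ m) := by
  ext p
  have h3 : (0 : ℝ) < 3 ^ m := by positivity
  simp only [cyl, mem_ofPred_eq, mem_iUnion, Finset.mem_range, mem_prod, mem_Ioc, and_false,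
    or_false]
  constructor
  · rintro ⟨⟨h0, h1⟩, hB⟩
    exact ⟨idx m p.2, idx_lt m p.2 h0 h1, hB, (idx_eq m _ p.2 h0).1 rfl⟩
  · rintro ⟨k, hk, hB, h1, h2⟩
    have h0 : 0 < p.2 := lt_of_le_of_lt (by positivity) h1
    have h4 : p.2 ≤ 1 := by
      refine h2.trans ?_
      rw [div_le_one h3]
      exact_mod_cast hk
    have h5 : idx m p.2 = k := (idx_eq m k p.2 h0).2 ⟨h1, h2⟩
    rw [h5]
    exact ⟨⟨h0, h4⟩, hB⟩

lemma cyl_split (m : ℕ) (B : ℕ → Set Ω) (b : Prop) : cyl m B b =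
    cyl m B False ∪ ((univ ×ˢ Ioc (0 : ℝ) 1)ᶜ ∩ {_p | b}) := by
  ext p
  simp only [cyl, mem_ofPred_eq, mem_union, mem_inter_iff, mem_compl_iff, mem_prod, mem_univ,
    true_and, mem_Ioc, and_false, or_false]

lemma alg_gen (F : U → ℝ → ℝ) (W : ℝ≥0 → Ω → ℝ) (V : Ω → U) :
    Pred F W V = MeasurableSpace.generateFrom (Alg F W V) := by
  apply le_antisymm
  · refine MeasurableSpace.generateFrom_le ?_
    rintro D ⟨m, k, B, hk, hB, rfl⟩
    refine MeasurableSpace.measurableSet_generateFrom ?_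
    refine ⟨m, fun j => {ω | j = k ∧ ω ∈ B}, False, fun j hj => ?_, ?_⟩
    · by_cases h : j = k
      · subst h
        simpa using hB
      · simp only [h, false_and, ofPred_false]
        exact @MeasurableSet.empty _ (grid F W V m j)
    · rw [cyl_false]
      ext p
      simp only [mem_prod, mem_iUnion, Finset.mem_range, mem_ofPred_eq]
      constructor
      · rintro ⟨h1, h2⟩
        exact ⟨k, hk, ⟨rfl, h1⟩, h2⟩
      · rintro ⟨j, -, ⟨rfl, h1⟩, h2⟩
        exact ⟨h1, h2⟩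
  · refine MeasurableSpace.generateFrom_le ?_
    rintro D ⟨m, B, b, hB, rfl⟩
    rw [cyl_split]
    have h1 : MeasurableSet[Pred F W V] (cyl m B False) := by
      rw [cyl_false]
      refine @Finset.measurableSet_biUnion _ _ (Pred F W V) _ _ fun k hk => ?_
      exact MeasurableSpace.measurableSet_generateFrom
        ⟨m, k, B k, Finset.mem_range.1 hk, hB k (Finset.mem_range.1 hk), rfl⟩
    have h2 : MeasurableSet[Pred F W V] ((univ : Set Ω) ×ˢ Ioc (0 : ℝ) 1) := by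
      refine MeasurableSpace.measurableSet_generateFrom ⟨0, 0, univ, by norm_num,
        @MeasurableSet.univ _ (grid F W V 0 0), ?_⟩
      simp
    have h3 : MeasurableSet[Pred F W V] ({_p | b} : Set (Ω × ℝ)) :=
      @MeasurableSet.const _ (Pred F W V) b
    exact h1.union (h2.compl.inter h3)

lemma meas_X [mΩ : MeasurableSpace Ω] {P : Measure Ω} {W : ℝ≥0 → Ω → ℝ} {V : Ω → U}
    {F : U → ℝ → ℝ} (hS : Setup Ω P W V) (hF : IsCdf F) (r : ℝ≥0) : Measurable (X F W V r) := by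
  unfold X
  exact (hS.measW r).add ((hF.meas (r : ℝ)).comp hS.measV)

lemma grid_le_amb [mΩ : MeasurableSpace Ω] {P : Measure Ω} {W : ℝ≥0 → Ω → ℝ} {V : Ω → U}
    {F : U → ℝ → ℝ} (hS : Setup Ω P W V) (hF : IsCdf F) (m k : ℕ) : grid F W V m k ≤ mΩ :=
  iSup₂_le fun _ _ => (meas_X hS hF _).comap_le

lemma pred_le [mΩ : MeasurableSpace Ω] {P : Measure Ω} {W : ℝ≥0 → Ω → ℝ} {V : Ω → U}
    {F : U → ℝ → ℝ} (hS : Setup Ω P W V) (hF : IsCdf F) :
    Pred F W V ≤ (inferInstance : MeasurableSpace (Ω × ℝ)) := by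
  refine MeasurableSpace.generateFrom_le ?_
  rintro D ⟨m, k, B, hk, hB, rfl⟩
  exact (grid_le_amb hS hF m k _ hB).prod measurableSet_Ioc

/-- an abstract version of the last step -/
lemma abstract_zero {α : Type} {m0 : MeasurableSpace α} (m : MeasurableSpace α) (hle : m ≤ m0)
    (lam mu : Measure[m0] α) [IsFiniteMeasure lam] [IsFiniteMeasure mu] (A : Set (Set α))
    (hA : IsSetAlgebra A) (hgen : m = MeasurableSpace.generateFrom A)
    (hkey : ∀ D ∈ A, ∀ c : ℝ, c * lam.real D ≤ c ^ 2 / 2 * mu.real D + 1)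
    (D : Set α) (hD : MeasurableSet[m] D) (hmu : mu D = 0) : lam D = 0 := by
  have hdense := @Measure.MeasureDense.of_generateFrom_isSetAlgebra_finite α m
    ((lam + mu).trim hle) A (isFiniteMeasure_trim hle) hA hgen
  have hsmall : ∀ η : ℝ, 0 < η → η ≤ 1 → lam.real D ≤ 5 / 2 * η := by
    intro η hη hη1
    obtain ⟨T, hT, hlt⟩ := hdense.approx D hD (measure_ne_top _ _) (η ^ 2) (by positivity)
    have hTm : MeasurableSet[m] T := hdense.measurable T hT
    rw [trim_measurableSet_eq hle (hD.symmDiff hTm)] at hlt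
    have hlt2 : lam.real (D ∆ T) + mu.real (D ∆ T) < η ^ 2 := by
      have h1 : (lam + mu).real (D ∆ T) < η ^ 2 := by
        rw [measureReal_def]
        exact (ENNReal.lt_ofReal_iff_toReal_lt (measure_ne_top _ _)).1 hlt
      rwa [measureReal_add_apply] at h1
    have hmu0 : mu.real D = 0 := by rw [measureReal_def, hmu]; rfl
    have h1 : mu.real T ≤ η ^ 2 := by
      have h2 : mu.real T ≤ mu.real (D ∪ D ∆ T) := by
        refine measureReal_mono (fun x hx => ?_) (measure_ne_top _ _)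
        by_cases hxD : x ∈ D
        · exact Or.inl hxD
        · exact Or.inr (Or.inr ⟨hx, hxD⟩)
      have h3 : mu.real (D ∪ D ∆ T) ≤ mu.real D + mu.real (D ∆ T) := measureReal_union_le _ _
      have h4 : 0 ≤ lam.real (D ∆ T) := measureReal_nonneg
      linarith
    have h5 : lam.real D ≤ lam.real T + η ^ 2 := by
      have h2 : lam.real D ≤ lam.real (T ∪ D ∆ T) := by
        refine measureReal_mono (fun x hx => ?_) (measure_ne_top _ _)
        by_cases hxT : x ∈ T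
        · exact Or.inl hxT
        · exact Or.inr (Or.inl ⟨hx, hxT⟩)
      have h3 : lam.real (T ∪ D ∆ T) ≤ lam.real T + lam.real (D ∆ T) := measureReal_union_le _ _
      have h4 : 0 ≤ mu.real (D ∆ T) := measureReal_nonneg
      linarith
    have h6 := hkey T hT (1 / η)
    have h7 : lam.real T ≤ 3 / 2 * η := by
      have h8 : (1 / η) ^ 2 / 2 * mu.real T ≤ 1 / 2 := by
        have h9 : (1 / η) ^ 2 / 2 * mu.real T ≤ (1 / η) ^ 2 / 2 * η ^ 2 := by gcongr
        have h10 : (1 / η) ^ 2 / 2 * η ^ 2 = 1 / 2 := by field_simp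
        linarith
      have h11 : 1 / η * lam.real T ≤ 3 / 2 := by linarith
      have h12 : lam.real T = η * (1 / η * lam.real T) := by field_simp
      rw [h12]
      nlinarith
    nlinarith
  have hzero : lam.real D ≤ 0 := by
    by_contra hcon
    push Not at hcon
    have h1 := hsmall (min 1 (lam.real D / 5)) (by positivity) (min_le_left _ _)
    have h2 : min 1 (lam.real D / 5) ≤ lam.real D / 5 := min_le_right _ _
    linarith
  have h0 : lam.real D = 0 := le_antisymm hzero measureReal_nonneg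
  rw [measureReal_def, ENNReal.toReal_eq_zero_iff] at h0
  exact h0.resolve_right (measure_ne_top _ _)

lemma kappa_compl {F : U → ℝ → ℝ} {κ : Kernel U ℝ} (hF : IsCdf F)
    (hκ : ∀ u s t, s ≤ t → κ u (Ioc s t) = ENNReal.ofReal (F u t - F u s)) (u : U) :
    κ u (Ioc (0 : ℝ) 1)ᶜ = 0 := by
  have h1 : (Ioc (0 : ℝ) 1)ᶜ ⊆ (⋃ n : ℕ, Ioc (-(n : ℝ)) 0) ∪ ⋃ n : ℕ, Ioc (1 : ℝ) ((n : ℝ) + 1) := by
    intro x hx
    rw [mem_compl_iff, mem_Ioc, not_and_or, not_lt, not_le] at hx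
    rcases hx with hx | hx
    · obtain ⟨n, hn⟩ := exists_nat_gt (-x)
      exact Or.inl (mem_iUnion.2 ⟨n, by constructor <;> linarith⟩)
    · obtain ⟨n, hn⟩ := exists_nat_gt x
      exact Or.inr (mem_iUnion.2 ⟨n, by constructor <;> linarith⟩)
  refine measure_mono_null h1 (measure_union_null ?_ ?_)
  · refine measure_iUnion_null fun n => ?_
    rw [hκ u _ _ (by simp), hF.left u 0 le_rfl, hF.left u (-(n : ℝ)) (by simp)]
    simp
  · refine measure_iUnion_null fun n => ?_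
    rw [hκ u _ _ (by simp), hF.right u 1 le_rfl, hF.right u ((n : ℝ) + 1) (by simp)]
    simp

lemma disj_cells (m : ℕ) (B : ℕ → Set Ω) : (Set.PairwiseDisjoint (↑(Finset.range (3 ^ m)))
    fun k : ℕ => B k ×ˢ Ioc ((k : ℝ) / 3 ^ m) (((k : ℝ) + 1) / 3 ^ m)) := by
  intro i _ j _ hij
  refine Set.disjoint_left.2 ?_
  rintro p ⟨-, h1, h2⟩ ⟨-, h3, h4⟩
  apply hij
  have h0 : 0 < p.2 := lt_of_le_of_lt (by positivity) h1
  rw [← (idx_eq m i p.2 h0).2 ⟨h1, h2⟩, ← (idx_eq m j p.2 h0).2 ⟨h3, h4⟩]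

theorem t_AC : S_AC := by
  intro Ω mΩ P W V F κ hV hS hF hDV hκfin hκ D hD hmuD
  have := hS.prob
  have hle := pred_le hS hF
  set mu : Measure (Ω × ℝ) := P.prod (volume.restrict (Ioc (0 : ℝ) 1)) with hmu
  set lam : Measure (Ω × ℝ) := P ⊗ₘ (κ.comap V hV) with hlam
  refine abstract_zero (Pred F W V) hle lam mu (Alg F W V) (alg_isSetAlgebra F W V)
    (alg_gen F W V) ?_ D hD hmuD
  rintro T ⟨m, B, b, hB, rfl⟩ c
  have hBm : ∀ k ∈ Finset.range (3 ^ m), MeasurableSet (B k) := fun k hk =>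
    grid_le_amb hS hF m k _ (hB k (Finset.mem_range.1 hk))
  -- both measures vanish outside `Ω × (0,1]`
  have hmu0 : mu (univ ×ˢ Ioc (0 : ℝ) 1)ᶜ = 0 := by
    have h1 : ((univ : Set Ω) ×ˢ Ioc (0 : ℝ) 1)ᶜ = univ ×ˢ (Ioc (0 : ℝ) 1)ᶜ := by
      ext p; simp
    rw [h1, hmu, Measure.prod_prod, Measure.restrict_apply measurableSet_Ioc.compl]
    simp
  have hlam0 : lam (univ ×ˢ Ioc (0 : ℝ) 1)ᶜ = 0 := by
    have h1 : ((univ : Set Ω) ×ˢ Ioc (0 : ℝ) 1)ᶜ = univ ×ˢ (Ioc (0 : ℝ) 1)ᶜ := by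
      ext p; simp
    rw [h1, hlam, Measure.compProd_apply_prod MeasurableSet.univ measurableSet_Ioc.compl]
    simp only [Kernel.comap_apply]
    simp [kappa_compl hF hκ]
  have hsplit : ∀ ρ : Measure (Ω × ℝ), ρ (univ ×ˢ Ioc (0 : ℝ) 1)ᶜ = 0 →
      ρ.real (cyl m B b) = ρ.real (cyl m B False) := by
    intro ρ hρ
    rw [measureReal_def, measureReal_def, cyl_split m B b]
    congr 1
    apply le_antisymm
    · refine (measure_union_le _ _).trans ?_
      have h2 : ρ ((univ ×ˢ Ioc (0 : ℝ) 1)ᶜ ∩ {_p | b}) = 0 :=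
        measure_mono_null inter_subset_left hρ
      rw [h2, add_zero]
    · exact measure_mono subset_union_left
  rw [hsplit lam hlam0, hsplit mu hmu0, cyl_false]
  have hcell : ∀ k ∈ Finset.range (3 ^ m), MeasurableSet
      (B k ×ˢ Ioc ((k : ℝ) / 3 ^ m) (((k : ℝ) + 1) / 3 ^ m)) := fun k hk =>
    (hBm k hk).prod measurableSet_Ioc
  rw [measureReal_biUnion_finset (disj_cells m B) hcell,
    measureReal_biUnion_finset (disj_cells m B) hcell]
  have h3 : (0 : ℝ) < 3 ^ m := by positivity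
  have hmuk : ∀ k ∈ Finset.range (3 ^ m),
      mu.real (B k ×ˢ Ioc ((k : ℝ) / 3 ^ m) (((k : ℝ) + 1) / 3 ^ m)) =
        (1 / 3) ^ m * P.real (B k) := by
    intro k hk
    have hk' : k + 1 ≤ 3 ^ m := Finset.mem_range.1 hk
    have hk'' : (k : ℝ) + 1 ≤ 3 ^ m := by exact_mod_cast hk'
    have hsub : Ioc ((k : ℝ) / 3 ^ m) (((k : ℝ) + 1) / 3 ^ m) ∩ Ioc (0 : ℝ) 1 =
        Ioc ((k : ℝ) / 3 ^ m) (((k : ℝ) + 1) / 3 ^ m) := by
      apply inter_eq_left.2
      apply Ioc_subset_Ioc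
      · positivity
      · rwa [div_le_one h3]
    rw [measureReal_def, hmu, Measure.prod_prod, Measure.restrict_apply measurableSet_Ioc, hsub,
      Real.volume_Ioc, ENNReal.toReal_mul, ENNReal.toReal_ofReal, ← measureReal_def]
    · have h5 : ((k : ℝ) + 1) / 3 ^ m - (k : ℝ) / 3 ^ m = (1 / 3) ^ m := by
        rw [← sub_div, one_div, inv_pow]
        field_simp
        ring
      rw [h5, mul_comm]
    · rw [← sub_div]
      apply div_nonneg _ h3.le
      linarith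
  have hlamk : ∀ k ∈ Finset.range (3 ^ m),
      lam.real (B k ×ˢ Ioc ((k : ℝ) / 3 ^ m) (((k : ℝ) + 1) / 3 ^ m)) =
        ∫ ω in B k, mass (V ω) m k ∂P := by
    intro k hk
    have hk' : k < 3 ^ m := Finset.mem_range.1 hk
    have hle2 : (k : ℝ) / 3 ^ m ≤ ((k : ℝ) + 1) / 3 ^ m := by
      gcongr
      linarith
    have hmass : (fun ω => mass (V ω) m k) =
        fun ω => F (V ω) (((k : ℝ) + 1) / 3 ^ m) - F (V ω) ((k : ℝ) / 3 ^ m) := by
      funext ω
      rw [hF.incr (V ω) m k hk']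
    have hmeas : Measurable fun ω => mass (V ω) m k := by
      rw [hmass]
      exact ((hF.meas _).comp hS.measV).sub ((hF.meas _).comp hS.measV)
    have hnn : ∀ ω, 0 ≤ mass (V ω) m k := by
      intro ω
      unfold mass
      split_ifs <;> positivity
    rw [measureReal_def, hlam, Measure.compProd_apply_prod (hBm k hk) measurableSet_Ioc]
    simp only [Kernel.comap_apply]
    rw [integral_eq_lintegral_of_nonneg_ae (Eventually.of_forall hnn)
      hmeas.aestronglyMeasurable]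
    congr 1
    refine lintegral_congr fun ω => ?_
    rw [hκ _ _ _ hle2, hF.incr (V ω) m k hk']
  rw [Finset.sum_congr rfl hmuk, Finset.sum_congr rfl hlamk, ← Finset.mul_sum, ← mul_assoc]
  exact hDV m c B hB

end Run7.h849.RG
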